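import Pool.Agent.H93.SP.Targets

/-!
# Module PF: the map of homotopy groups is a homomorphism
-/

open Topology Set
open scoped unitInterval ContinuousMap Topology.Homotopy
open Pool.Agent.H59 Pool.Agent.H64.LB Pool.Agent.H93.SPB

namespace Pool.Agent.H48.SP.PF

noncomputable section

variable {X X' : Type} [TopologicalSpace X] [TopologicalSpace X']

/-- composition of a generalized loop with a continuous map -/
def post {N : Type} (f : C(X, X')) (x : X) (p : GenLoop N X x) : GenLoop N X' (f x) :=
  ⟨f.comp p.1, fun y hy => by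
    change f (p y) = f x
    exact congrArg f (p.2 y hy)⟩

@[simp] theorem post_apply {N : Type} (f : C(X, X')) (x : X) (p : GenLoop N X x) (y : N → I) :
    post f x p y = f (p y) := rfl

theorem post_homotopic {N : Type} (f : C(X, X')) (x : X) {p q : GenLoop N X x}
    (h : GenLoop.Homotopic p q) : GenLoop.Homotopic (post f x p) (post f x q) :=
  ContinuousMap.HomotopicRel.comp_continuousMap h f

theorem post_transAt {N : Type} [DecidableEq N] (f : C(X, X')) (x : X) (i : N)
    (p q : GenLoop N X x) :
    post f x (GenLoop.transAt i p q) = GenLoop.transAt i (post f x p) (post f x q) := by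
  apply GenLoop.ext
  intro y
  change f ((GenLoop.transAt i p q) y) = _
  simp only [GenLoop.transAt, GenLoop.coe_copy]
  split_ifs <;> rfl

theorem pf : T_PF := by
  intro X X' _ _ f x x' hx k
  subst hx
  let F : HomotopyGroup.Pi (k + 1) X x → HomotopyGroup.Pi (k + 1) X' (f x) :=
    Quotient.map (post f x) (fun p q h => post_homotopic f x h)
  have hF : ∀ p : GenLoop (Fin (k + 1)) X x, F (hcl p) = hcl (post f x p) := fun p => rfl
  refine ⟨MonoidHom.mk' F ?_, ?_⟩
  · intro a b
    obtain ⟨p, rfl⟩ : ∃ p, hcl p = a := Quotient.exists_rep a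
    obtain ⟨q, rfl⟩ : ∃ q, hcl q = b := Quotient.exists_rep b
    have h1 : hcl p * hcl q = hcl (GenLoop.transAt 0 q p) := HomotopyGroup.mul_spec
    have h2 : hcl (post f x p) * hcl (post f x q)
        = hcl (GenLoop.transAt 0 (post f x q) (post f x p)) := HomotopyGroup.mul_spec
    rw [h1, hF, hF, hF, h2, post_transAt]
  · intro p p' hp
    change F (hcl p) = hcl p'
    rw [hF]
    congr 1
    apply GenLoop.ext
    intro y
    rw [hp y]; rfl

end

end Pool.Agent.H48.SP.PF
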