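import Pool.Agent.H93.SP.Targets

/-!
# Module AF: finiteness and vanishing for products with a punctured space
-/

open Topology Set
open scoped unitInterval ContinuousMap
open Pool.Agent.H59 Pool.Agent.H64.LB Pool.Agent.H93.SPB

namespace Pool.Agent.H48.SP.AF

noncomputable section

/-- upper set -/
def Ap (n : ℕ) : Set (AA n) := {p | p.1.1 ≠ 0 ∨ 0 < p.1.2}
/-- lower set -/
def Bm (n : ℕ) : Set (AA n) := {p | p.1.1 ≠ 0 ∨ p.1.2 < 0}

theorem isOpen_Ap (n : ℕ) : IsOpen (Ap n) :=
  (isOpen_ne.preimage (continuous_fst.comp continuous_subtype_val)).union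
    (isOpen_lt continuous_const (continuous_snd.comp continuous_subtype_val))

theorem isOpen_Bm (n : ℕ) : IsOpen (Bm n) :=
  (isOpen_ne.preimage (continuous_fst.comp continuous_subtype_val)).union
    (isOpen_lt (continuous_snd.comp continuous_subtype_val) continuous_const)

theorem Ap_union_Bm (n : ℕ) : Ap n ∪ Bm n = univ := by
  ext p
  simp only [mem_union, mem_univ, iff_true]
  by_cases h : p.1.1 = 0
  · rcases lt_trichotomy p.1.2 0 with h2 | h2 | h2
    · exact Or.inr (Or.inr h2)
    · exact absurd (Prod.ext h h2) p.2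
    · exact Or.inl (Or.inr h2)
  · exact Or.inl (Or.inl h)

theorem mem_inter {n : ℕ} {p : AA n} (h : p ∈ Ap n ∩ Bm n) : p.1.1 ≠ 0 := by
  rcases h with ⟨h1 | h1, h2 | h2⟩
  · exact h1
  · exact h1
  · exact h2
  · exact absurd h1 (not_lt.mpr h2.le)

variable {Z : Type} [TopologicalSpace Z]

/-- the point `(0, 1)` -/
def ptA (n : ℕ) : Ap n := ⟨⟨(0, 1), fun h => one_ne_zero (congrArg Prod.snd h)⟩, Or.inr one_pos⟩
/-- the point `(0, -1)` -/
def ptB (n : ℕ) : Bm n :=
  ⟨⟨(0, -1), fun h => (neg_ne_zero.mpr one_ne_zero) (congrArg Prod.snd h)⟩,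
    Or.inr (neg_lt_zero.mpr one_pos)⟩

theorem lineA {n : ℕ} (p : AA n) (hp : p ∈ Ap n) (r : I) :
    ((1 - (r : ℝ)) • p.1.1 ≠ 0 ∨ 0 < (1 - (r : ℝ)) * p.1.2 + r) := by
  rcases eq_or_lt_of_le r.2.2 with h | h
  · right; rw [h]; norm_num
  · rcases hp with h1 | h1
    · left
      exact smul_ne_zero (by linarith) h1
    · right
      have : 0 < (1 - (r : ℝ)) * p.1.2 := mul_pos (by linarith) h1
      linarith [r.2.1]

theorem lineB {n : ℕ} (p : AA n) (hp : p ∈ Bm n) (r : I) :
    ((1 - (r : ℝ)) • p.1.1 ≠ 0 ∨ (1 - (r : ℝ)) * p.1.2 - r < 0) := by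
  rcases eq_or_lt_of_le r.2.2 with h | h
  · right; rw [h]; norm_num
  · rcases hp with h1 | h1
    · left
      exact smul_ne_zero (by linarith) h1
    · right
      have : (1 - (r : ℝ)) * p.1.2 < 0 := mul_neg_of_pos_of_neg (by linarith) h1
      linarith [r.2.1]

theorem contrA (Z : Type) [TopologicalSpace Z] (n : ℕ) :
    (ContinuousMap.id (Z × Ap n)).Homotopic
      (⟨fun p => (p.1, ptA n), continuous_fst.prodMk continuous_const⟩ : C(Z × Ap n, Z × Ap n)) := by
  refine ⟨{
    toFun := fun p => (p.2.1, ⟨⟨((1 - (p.1 : ℝ)) • p.2.2.1.1.1,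
      (1 - (p.1 : ℝ)) * p.2.2.1.1.2 + (p.1 : ℝ)), fun h => ?_⟩, lineA p.2.2.1 p.2.2.2 p.1⟩)
    continuous_toFun := ?_
    map_zero_left := ?_
    map_one_left := ?_ }⟩
  · rcases lineA p.2.2.1 p.2.2.2 p.1 with h1 | h1
    · exact h1 (congrArg Prod.fst h)
    · exact h1.ne' (congrArg Prod.snd h)
  · have h0 : Continuous fun p : I × (Z × ↥(Ap n)) => p.2.2.1.1 :=
      continuous_subtype_val.comp (continuous_subtype_val.comp
        (continuous_snd.comp continuous_snd))
    have h1 : Continuous fun p : I × (Z × ↥(Ap n)) => (p.1 : ℝ) :=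
      continuous_subtype_val.comp continuous_fst
    refine (continuous_fst.comp continuous_snd).prodMk
      (Continuous.subtype_mk (Continuous.subtype_mk ?_ _) _)
    exact ((continuous_const.sub h1).smul (continuous_fst.comp h0)).prodMk
      (((continuous_const.sub h1).mul (continuous_snd.comp h0)).add h1)
  · rintro ⟨z, v⟩
    refine Prod.ext rfl (Subtype.ext (Subtype.ext ?_))
    change ((1 - ((0 : I) : ℝ)) • v.1.1.1, (1 - ((0 : I) : ℝ)) * v.1.1.2 + ((0 : I) : ℝ)) = v.1.1
    simp
  · rintro ⟨z, v⟩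
    refine Prod.ext rfl (Subtype.ext (Subtype.ext ?_))
    change ((1 - ((1 : I) : ℝ)) • v.1.1.1, (1 - ((1 : I) : ℝ)) * v.1.1.2 + ((1 : I) : ℝ)) =
      ((0 : Fin n → ℝ), (1 : ℝ))
    simp

theorem contrB (Z : Type) [TopologicalSpace Z] (n : ℕ) :
    (ContinuousMap.id (Z × Bm n)).Homotopic
      (⟨fun p => (p.1, ptB n), continuous_fst.prodMk continuous_const⟩ : C(Z × Bm n, Z × Bm n)) := by
  refine ⟨{
    toFun := fun p => (p.2.1, ⟨⟨((1 - (p.1 : ℝ)) • p.2.2.1.1.1,
      (1 - (p.1 : ℝ)) * p.2.2.1.1.2 - (p.1 : ℝ)), fun h => ?_⟩, lineB p.2.2.1 p.2.2.2 p.1⟩)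
    continuous_toFun := ?_
    map_zero_left := ?_
    map_one_left := ?_ }⟩
  · rcases lineB p.2.2.1 p.2.2.2 p.1 with h1 | h1
    · exact h1 (congrArg Prod.fst h)
    · exact h1.ne (congrArg Prod.snd h)
  · have h0 : Continuous fun p : I × (Z × ↥(Bm n)) => p.2.2.1.1 :=
      continuous_subtype_val.comp (continuous_subtype_val.comp
        (continuous_snd.comp continuous_snd))
    have h1 : Continuous fun p : I × (Z × ↥(Bm n)) => (p.1 : ℝ) :=
      continuous_subtype_val.comp continuous_fst
    refine (continuous_fst.comp continuous_snd).prodMk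
      (Continuous.subtype_mk (Continuous.subtype_mk ?_ _) _)
    exact ((continuous_const.sub h1).smul (continuous_fst.comp h0)).prodMk
      (((continuous_const.sub h1).mul (continuous_snd.comp h0)).sub h1)
  · rintro ⟨z, v⟩
    refine Prod.ext rfl (Subtype.ext (Subtype.ext ?_))
    change ((1 - ((0 : I) : ℝ)) • v.1.1.1, (1 - ((0 : I) : ℝ)) * v.1.1.2 - ((0 : I) : ℝ)) = v.1.1
    simp
  · rintro ⟨z, v⟩
    refine Prod.ext rfl (Subtype.ext (Subtype.ext ?_))
    change ((1 - ((1 : I) : ℝ)) • v.1.1.1, (1 - ((1 : I) : ℝ)) * v.1.1.2 - ((1 : I) : ℝ)) =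
      ((0 : Fin n → ℝ), (-1 : ℝ))
    simp

/-- a map with a homotopy left inverse is injective on homology -/
theorem inj_of_homotopic (h2 : T_HI) {X Y : Type} [TopologicalSpace X] [TopologicalSpace Y]
    (f : C(X, Y)) (g : C(Y, X)) (h : (ContinuousMap.id X).Homotopic (g.comp f)) (q : ℕ) :
    Function.Injective (HH.map ℚ q f) := by
  rw [injective_iff_map_eq_zero]
  intro x hx
  have h1 := HH.map_id ℚ q x
  rw [h2 _ _ _ _ h q, HH.map_comp, hx, map_zero] at h1
  exact h1.symm

/-- the projection of `Z × A` to `Z` is injective on homology -/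
theorem injA (h2 : T_HI) (Z : Type) [TopologicalSpace Z] (n q : ℕ) :
    Function.Injective (HH.map ℚ q (⟨Prod.fst, continuous_fst⟩ : C(Z × Ap n, Z))) :=
  inj_of_homotopic h2 _ ⟨fun z => (z, ptA n), continuous_id.prodMk continuous_const⟩
    (contrA Z n) q

theorem injB (h2 : T_HI) (Z : Type) [TopologicalSpace Z] (n q : ℕ) :
    Function.Injective (HH.map ℚ q (⟨Prod.fst, continuous_fst⟩ : C(Z × Bm n, Z))) :=
  inj_of_homotopic h2 _ ⟨fun z => (z, ptB n), continuous_id.prodMk continuous_const⟩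
    (contrB Z n) q

/-- the map `Z × (A ∩ B) → Z × AA m` for `n = m + 1` -/
def r1 (Z : Type) [TopologicalSpace Z] (m : ℕ) :
    C(Z × ↥(Ap (m + 1) ∩ Bm (m + 1)), Z × AA m) :=
  ⟨fun p => (p.1, ⟨(fun i => p.2.1.1.1 i.castSucc, p.2.1.1.1 (Fin.last m)), fun h => by
    apply mem_inter p.2.2
    funext i
    refine Fin.lastCases ?_ (fun j => ?_) i
    · exact congrArg Prod.snd h
    · exact congrFun (congrArg Prod.fst h) j⟩), by
    have h0 : Continuous fun p : Z × ↥(Ap (m + 1) ∩ Bm (m + 1)) => p.2.1.1.1 :=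
      continuous_fst.comp (continuous_subtype_val.comp
        (continuous_subtype_val.comp continuous_snd))
    refine continuous_fst.prodMk (Continuous.subtype_mk ?_ _)
    exact (continuous_pi fun i => (continuous_apply _).comp h0).prodMk
      ((continuous_apply _).comp h0)⟩

/-- a homotopy inverse -/
def r2 (Z : Type) [TopologicalSpace Z] (m : ℕ) :
    C(Z × AA m, Z × ↥(Ap (m + 1) ∩ Bm (m + 1))) :=
  ⟨fun p => (p.1, ⟨⟨((Fin.snoc (α := fun _ => ℝ) p.2.1.1 p.2.1.2 : Fin (m + 1) → ℝ), 0),
      fun h => by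
        have h1 : (Fin.snoc (α := fun _ => ℝ) p.2.1.1 p.2.1.2 : Fin (m + 1) → ℝ) = 0 :=
          congrArg Prod.fst h
        apply p.2.2
        refine Prod.ext (funext fun i => ?_) ?_
        · have := congrFun h1 i.castSucc
          simpa using this
        · have := congrFun h1 (Fin.last m)
          simpa using this⟩,
      by
        have h1 : (Fin.snoc (α := fun _ => ℝ) p.2.1.1 p.2.1.2 : Fin (m + 1) → ℝ) ≠ 0 := by
          intro h1
          apply p.2.2
          refine Prod.ext (funext fun i => ?_) ?_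
          · have := congrFun h1 i.castSucc
            simpa using this
          · have := congrFun h1 (Fin.last m)
            simpa using this
        exact ⟨Or.inl h1, Or.inl h1⟩⟩), by
    have h0 : Continuous fun p : Z × AA m => p.2.1 :=
      continuous_subtype_val.comp continuous_snd
    refine continuous_fst.prodMk (Continuous.subtype_mk (Continuous.subtype_mk ?_ _) _)
    refine Continuous.prodMk ?_ continuous_const
    refine continuous_pi fun i => ?_
    refine Fin.lastCases ?_ (fun j => ?_) i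
    · simp only [Fin.snoc_last]
      exact continuous_snd.comp h0
    · simp only [Fin.snoc_castSucc]
      exact (continuous_apply j).comp (continuous_fst.comp h0)⟩

theorem r2_r1 (Z : Type) [TopologicalSpace Z] (m : ℕ) :
    (ContinuousMap.id _).Homotopic ((r2 Z m).comp (r1 Z m)) := by
  refine ⟨{
    toFun := fun p => (p.2.1, ⟨⟨(p.2.2.1.1.1, (1 - (p.1 : ℝ)) * p.2.2.1.1.2),
      fun h => mem_inter p.2.2.2 (congrArg Prod.fst h)⟩,
      by
        have h := mem_inter p.2.2.2
        exact ⟨Or.inl h, Or.inl h⟩⟩)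
    continuous_toFun := ?_
    map_zero_left := ?_
    map_one_left := ?_ }⟩
  · have h0 : Continuous fun p : I × (Z × ↥(Ap (m + 1) ∩ Bm (m + 1))) => p.2.2.1.1 :=
      continuous_subtype_val.comp (continuous_subtype_val.comp
        (continuous_snd.comp continuous_snd))
    have h1 : Continuous fun p : I × (Z × ↥(Ap (m + 1) ∩ Bm (m + 1))) => (p.1 : ℝ) :=
      continuous_subtype_val.comp continuous_fst
    refine (continuous_fst.comp continuous_snd).prodMk
      (Continuous.subtype_mk (Continuous.subtype_mk ?_ _) _)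
    exact (continuous_fst.comp h0).prodMk ((continuous_const.sub h1).mul (continuous_snd.comp h0))
  · rintro ⟨z, v⟩
    refine Prod.ext rfl (Subtype.ext (Subtype.ext ?_))
    change (v.1.1.1, (1 - ((0 : I) : ℝ)) * v.1.1.2) = v.1.1
    simp
  · rintro ⟨z, v⟩
    refine Prod.ext rfl (Subtype.ext (Subtype.ext ?_))
    change (v.1.1.1, (1 - ((1 : I) : ℝ)) * v.1.1.2) =
      ((Fin.snoc (α := fun _ => ℝ) (fun i => v.1.1.1 i.castSucc) (v.1.1.1 (Fin.last m)) :
        Fin (m + 1) → ℝ), (0 : ℝ))
    refine Prod.ext ?_ ?_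
    · funext i
      refine Fin.lastCases ?_ (fun j => ?_) i
      · simp
      · simp
    · simp

theorem injR (h2 : T_HI) (Z : Type) [TopologicalSpace Z] (m q : ℕ) :
    Function.Injective (HH.map ℚ q (r1 Z m)) :=
  inj_of_homotopic h2 _ (r2 Z m) (r2_r1 Z m) q

/-- the homology of an empty space vanishes -/
theorem hh_empty (Y : Type) [TopologicalSpace Y] [IsEmpty Y] (q : ℕ) :
    Subsingleton (HH ℚ q Y) := by
  have h0 : IsEmpty (Smp (q + 1) Y) := ⟨fun s => isEmptyElim (s (Classical.arbitrary _))⟩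
  have h1 : Subsingleton (Ch ℚ (q + 1) Y) :=
    inferInstanceAs (Subsingleton (Smp (q + 1) Y →₀ ℚ))
  refine subsingleton_of_forall_eq 0 fun z => ?_
  induction z using HH.ind with
  | h x =>
    have : x = 0 := Subtype.ext (Subsingleton.elim _ _)
    rw [this, map_zero]

theorem inter_isEmpty (Z : Type) : IsEmpty (Z × ↥(Ap 0 ∩ Bm 0)) :=
  ⟨fun p => mem_inter p.2.2 (Subsingleton.elim _ _)⟩

theorem af (h1 : T_MVP) (h2 : T_HI) : T_AF := by
  intro Z _
  constructor
  · intro hZ
    have hA : ∀ n q, Module.Finite ℚ (HH ℚ q (Z × Ap n)) := fun n q =>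
      have := hZ q
      Module.Finite.of_injective _ (injA h2 Z n q)
    have hB : ∀ n q, Module.Finite ℚ (HH ℚ q (Z × Bm n)) := fun n q =>
      have := hZ q
      Module.Finite.of_injective _ (injB h2 Z n q)
    -- one step
    have step : ∀ n, (∀ q, Module.Finite ℚ (HH ℚ q (Z × ↥(Ap n ∩ Bm n)))) →
        ∀ q, Module.Finite ℚ (HH ℚ q (Z × AA n)) := by
      intro n hI q
      obtain ⟨D, hD1, -, -, hD4, -⟩ := h1 Z (AA n) (Ap n) (Bm n) (isOpen_Ap n) (isOpen_Bm n)
        (Ap_union_Bm n)
      cases q with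
      | zero =>
        have := hA n 0
        have := hB n 0
        let S : (HH ℚ 0 (Z × Ap n) × HH ℚ 0 (Z × Bm n)) →ₗ[ℚ] HH ℚ 0 (Z × AA n) :=
          (HH.map ℚ 0 (zm Z (vl (Ap n)))).coprod (HH.map ℚ 0 (zm Z (vl (Bm n))))
        refine Module.Finite.of_surjective S fun x => ?_
        obtain ⟨y, z, hyz⟩ := hD4 x
        exact ⟨(y, z), by rw [hyz]; rfl⟩
      | succ q =>
        have := hA n (q + 1)
        have := hB n (q + 1)
        have := hI q
        let S : (HH ℚ (q + 1) (Z × Ap n) × HH ℚ (q + 1) (Z × Bm n)) →ₗ[ℚ]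
            HH ℚ (q + 1) (Z × AA n) :=
          (HH.map ℚ (q + 1) (zm Z (vl (Ap n)))).coprod (HH.map ℚ (q + 1) (zm Z (vl (Bm n))))
        have hle : LinearMap.ker (D q) ≤ LinearMap.range S := by
          intro x hx
          obtain ⟨y, z, hyz⟩ := hD1 q x hx
          exact ⟨(y, z), by rw [hyz]; rfl⟩
        have hk : Module.Finite ℚ (LinearMap.ker (D q)) :=
          Submodule.finiteDimensional_of_le hle
        have hq : Module.Finite ℚ (HH ℚ (q + 1) (Z × AA n) ⧸ LinearMap.ker (D q)) :=
          Module.Finite.equiv (D q).quotKerEquivRange.symm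
        exact Module.Finite.of_submodule_quotient (LinearMap.ker (D q))
    intro n
    induction n with
    | zero =>
      apply step
      intro q
      have := inter_isEmpty Z
      have := hh_empty (Z × ↥(Ap 0 ∩ Bm 0)) q
      infer_instance
    | succ m ih =>
      apply step
      intro q
      have := ih q
      exact Module.Finite.of_injective _ (injR h2 Z m q)
  · intro d hZ
    have hA : ∀ n, ∀ q ≥ d, Subsingleton (HH ℚ q (Z × Ap n)) := fun n q hq =>
      have := hZ q hq
      (injA h2 Z n q).subsingleton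
    have hB : ∀ n, ∀ q ≥ d, Subsingleton (HH ℚ q (Z × Bm n)) := fun n q hq =>
      have := hZ q hq
      (injB h2 Z n q).subsingleton
    have step : ∀ n, (∀ q, d + n ≤ q + 1 → Subsingleton (HH ℚ q (Z × ↥(Ap n ∩ Bm n)))) →
        ∀ q ≥ d + n, Subsingleton (HH ℚ q (Z × AA n)) := by
      intro n hI q hq
      obtain ⟨D, hD1, -, -, hD4, -⟩ := h1 Z (AA n) (Ap n) (Bm n) (isOpen_Ap n) (isOpen_Bm n)
        (Ap_union_Bm n)
      refine subsingleton_of_forall_eq 0 fun x => ?_
      have ha := hA n q (by omega)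
      have hb := hB n q (by omega)
      cases q with
      | zero =>
        obtain ⟨y, z, hyz⟩ := hD4 x
        rw [hyz, Subsingleton.elim y 0, Subsingleton.elim z 0, map_zero, map_zero, add_zero]
      | succ q =>
        have hi := hI q (by omega)
        obtain ⟨y, z, hyz⟩ := hD1 q x (Subsingleton.elim _ _)
        rw [hyz, Subsingleton.elim y 0, Subsingleton.elim z 0, map_zero, map_zero, add_zero]
    intro n
    induction n with
    | zero =>
      apply step
      intro q _
      have := inter_isEmpty Z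
      exact hh_empty (Z × ↥(Ap 0 ∩ Bm 0)) q
    | succ m ih =>
      apply step
      intro q hq
      have := ih q (by omega)
      exact (injR h2 Z m q).subsingleton

end

end Pool.Agent.H48.SP.AF
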