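import Pool.Agent.H93.SP.Targets

/-!
# Module AX: `H_3` of `(ℝ⁴ ∖ 0)²` comes from the axes
-/

open Topology Set
open scoped unitInterval ContinuousMap
open Pool.Agent.H59 Pool.Agent.H64.LB Pool.Agent.H93.SPB

namespace Pool.Agent.H48.SP.AX

noncomputable section

/-- `ℝ⁴` -/
abbrev R4 : Type := (Fin 3 → ℝ) × ℝ

/-- the punctured space `ℝ⁴ × ℝ⁴ ∖ 0` -/
abbrev WW : Type := {v : R4 × R4 // v ≠ 0}

/-- first component nonzero -/
def As : Set WW := {v | v.1.1 ≠ 0}
/-- second component nonzero -/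
def Bs : Set WW := {v | v.1.2 ≠ 0}

theorem isOpen_As : IsOpen As :=
  isOpen_ne.preimage (continuous_fst.comp continuous_subtype_val)

theorem isOpen_Bs : IsOpen Bs :=
  isOpen_ne.preimage (continuous_snd.comp continuous_subtype_val)

theorem As_union_Bs : As ∪ Bs = univ := by
  ext v
  simp only [mem_union, mem_univ, iff_true]
  by_contra h
  have h1 : v.1.1 = 0 := by
    by_contra h1; exact h (Or.inl h1)
  have h2 : v.1.2 = 0 := by
    by_contra h2; exact h (Or.inr h2)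
  exact v.2 (Prod.ext h1 h2)

/-- the homeomorphism of `AA 3 × AA 3` with `A ∩ B` -/
def phi : C(AA 3 × AA 3, PUnit.{1} × ↥(As ∩ Bs)) :=
  ⟨fun p => (PUnit.unit, ⟨⟨(p.1.1, p.2.1), fun h => p.1.2 (congrArg Prod.fst h)⟩,
    ⟨p.1.2, p.2.2⟩⟩), by
    refine continuous_const.prodMk (Continuous.subtype_mk (Continuous.subtype_mk ?_ _) _)
    exact (continuous_subtype_val.comp continuous_fst).prodMk
      (continuous_subtype_val.comp continuous_snd)⟩

/-- its inverse -/
def psi : C(PUnit.{1} × ↥(As ∩ Bs), AA 3 × AA 3) :=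
  ⟨fun p => (⟨p.2.1.1.1, p.2.2.1⟩, ⟨p.2.1.1.2, p.2.2.2⟩), by
    have h0 : Continuous fun p : PUnit.{1} × ↥(As ∩ Bs) => p.2.1.1 :=
      continuous_subtype_val.comp (continuous_subtype_val.comp continuous_snd)
    exact ((continuous_fst.comp h0).subtype_mk _).prodMk ((continuous_snd.comp h0).subtype_mk _)⟩

theorem psi_phi : psi.comp phi = ContinuousMap.id _ := rfl

/-- the first component -/
def q1 : C(PUnit.{1} × As, AA 3) :=
  ⟨fun p => ⟨p.2.1.1.1, p.2.2⟩, by
    have h0 : Continuous fun p : PUnit.{1} × ↥As => p.2.1.1 :=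
      continuous_subtype_val.comp (continuous_subtype_val.comp continuous_snd)
    exact (continuous_fst.comp h0).subtype_mk _⟩

/-- a section of `q1` -/
def s1 : C(AA 3, PUnit.{1} × As) :=
  ⟨fun p => (PUnit.unit, ⟨⟨(p.1, 0), fun h => p.2 (congrArg Prod.fst h)⟩, p.2⟩), by
    refine continuous_const.prodMk (Continuous.subtype_mk (Continuous.subtype_mk ?_ _) _)
    exact continuous_subtype_val.prodMk continuous_const⟩

theorem s1_q1 : (s1.comp q1).Homotopic (ContinuousMap.id _) := by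
  refine ⟨{
    toFun := fun p => (PUnit.unit, ⟨⟨(p.2.2.1.1.1, (p.1 : ℝ) • p.2.2.1.1.2),
      fun h => p.2.2.2 (congrArg Prod.fst h)⟩, p.2.2.2⟩)
    continuous_toFun := ?_
    map_zero_left := ?_
    map_one_left := ?_ }⟩
  · refine continuous_const.prodMk (Continuous.subtype_mk (Continuous.subtype_mk ?_ _) _)
    have h0 : Continuous fun p : I × (PUnit.{1} × ↥As) => p.2.2.1.1 :=
      continuous_subtype_val.comp (continuous_subtype_val.comp
        (continuous_snd.comp continuous_snd))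
    exact (continuous_fst.comp h0).prodMk
      ((continuous_subtype_val.comp continuous_fst).smul (continuous_snd.comp h0))
  · rintro ⟨_, v⟩
    refine Prod.ext rfl (Subtype.ext (Subtype.ext ?_))
    change (v.1.1.1, ((0 : I) : ℝ) • v.1.1.2) = (v.1.1.1, (0 : R4))
    simp
  · rintro ⟨_, v⟩
    refine Prod.ext rfl (Subtype.ext (Subtype.ext ?_))
    change (v.1.1.1, ((1 : I) : ℝ) • v.1.1.2) = v.1.1
    simp

/-- the second component -/
def q2 : C(PUnit.{1} × Bs, AA 3) :=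
  ⟨fun p => ⟨p.2.1.1.2, p.2.2⟩, by
    have h0 : Continuous fun p : PUnit.{1} × ↥Bs => p.2.1.1 :=
      continuous_subtype_val.comp (continuous_subtype_val.comp continuous_snd)
    exact (continuous_snd.comp h0).subtype_mk _⟩

/-- a section of `q2` -/
def s2 : C(AA 3, PUnit.{1} × Bs) :=
  ⟨fun p => (PUnit.unit, ⟨⟨(0, p.1), fun h => p.2 (congrArg Prod.snd h)⟩, p.2⟩), by
    refine continuous_const.prodMk (Continuous.subtype_mk (Continuous.subtype_mk ?_ _) _)
    exact continuous_const.prodMk continuous_subtype_val⟩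

theorem s2_q2 : (s2.comp q2).Homotopic (ContinuousMap.id _) := by
  refine ⟨{
    toFun := fun p => (PUnit.unit, ⟨⟨((p.1 : ℝ) • p.2.2.1.1.1, p.2.2.1.1.2),
      fun h => p.2.2.2 (congrArg Prod.snd h)⟩, p.2.2.2⟩)
    continuous_toFun := ?_
    map_zero_left := ?_
    map_one_left := ?_ }⟩
  · refine continuous_const.prodMk (Continuous.subtype_mk (Continuous.subtype_mk ?_ _) _)
    have h0 : Continuous fun p : I × (PUnit.{1} × ↥Bs) => p.2.2.1.1 :=
      continuous_subtype_val.comp (continuous_subtype_val.comp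
        (continuous_snd.comp continuous_snd))
    exact ((continuous_subtype_val.comp continuous_fst).smul (continuous_fst.comp h0)).prodMk
      (continuous_snd.comp h0)
  · rintro ⟨_, v⟩
    refine Prod.ext rfl (Subtype.ext (Subtype.ext ?_))
    change (((0 : I) : ℝ) • v.1.1.1, v.1.1.2) = ((0 : R4), v.1.1.2)
    simp
  · rintro ⟨_, v⟩
    refine Prod.ext rfl (Subtype.ext (Subtype.ext ?_))
    change (((1 : I) : ℝ) • v.1.1.1, v.1.1.2) = v.1.1
    simp

theorem finrank_R4R4 : Module.finrank ℝ (R4 × R4) = 8 := by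
  simp [Module.finrank_prod]

theorem ax (h1 : T_MVP) (h2 : T_HI) (h3 : T_AV) : T_AX := by
  intro a x
  obtain ⟨D, -, hD2, -, -, -⟩ := h1 PUnit.{1} WW As Bs isOpen_As isOpen_Bs As_union_Bs
  let A1 : C(AA 3, AA 3 × AA 3) := ⟨fun w : AA 3 => (w, a), by fun_prop⟩
  let A2 : C(AA 3, AA 3 × AA 3) := ⟨fun w : AA 3 => (a, w), by fun_prop⟩
  let p1 : C(AA 3 × AA 3, AA 3) := ⟨fun w => w.1, continuous_fst⟩
  let p2 : C(AA 3 × AA 3, AA 3) := ⟨fun w => w.2, continuous_snd⟩
  let p0 : C(AA 3 × AA 3, AA 3) := ContinuousMap.const _ a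
  have e1 : p1.comp (A1.comp p1) = p1 := rfl
  have e2 : p1.comp (A2.comp p2) = p0 := rfl
  have e3 : p1.comp (A1.comp p0) = p0 := rfl
  have e4 : p2.comp (A1.comp p1) = p0 := rfl
  have e5 : p2.comp (A2.comp p2) = p2 := rfl
  have e6 : p2.comp (A1.comp p0) = p0 := rfl
  let x' : HH ℚ 3 (AA 3 × AA 3) := x - HH.map ℚ 3 (A1.comp p1) x - HH.map ℚ 3 (A2.comp p2) x
    + HH.map ℚ 3 (A1.comp p0) x
  have hp1 : HH.map ℚ 3 p1 x' = 0 := by
    simp only [x', map_add, map_sub]
    rw [← HH.map_comp, ← HH.map_comp, ← HH.map_comp, e1, e2, e3]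
    abel
  have hp2 : HH.map ℚ 3 p2 x' = 0 := by
    simp only [x', map_add, map_sub]
    rw [← HH.map_comp, ← HH.map_comp, ← HH.map_comp, e4, e5, e6]
    abel
  have hq1 : (q1.comp (zm PUnit.{1} (inc (inter_subset_left : As ∩ Bs ⊆ As)))).comp phi = p1 := rfl
  have hq2 : (q2.comp (zm PUnit.{1} (inc (inter_subset_right : As ∩ Bs ⊆ Bs)))).comp phi = p2 := rfl
  have i1 : ∀ y : HH ℚ 3 (PUnit.{1} × As), HH.map ℚ 3 q1 y = 0 → y = 0 := by
    intro y hy
    have h := HH.map_id ℚ 3 y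
    rw [← h2 _ _ _ _ s1_q1 3, HH.map_comp, hy, map_zero] at h
    exact h.symm
  have i2 : ∀ y : HH ℚ 3 (PUnit.{1} × Bs), HH.map ℚ 3 q2 y = 0 → y = 0 := by
    intro y hy
    have h := HH.map_id ℚ 3 y
    rw [← h2 _ _ _ _ s2_q2 3, HH.map_comp, hy, map_zero] at h
    exact h.symm
  have hx1 : HH.map ℚ 3 (zm PUnit.{1} (inc (inter_subset_left : As ∩ Bs ⊆ As)))
      (HH.map ℚ 3 phi x') = 0 := by
    apply i1
    rw [← HH.map_comp, ← HH.map_comp, hq1, hp1]
  have hx2 : HH.map ℚ 3 (zm PUnit.{1} (inc (inter_subset_right : As ∩ Bs ⊆ Bs)))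
      (HH.map ℚ 3 phi x') = 0 := by
    apply i2
    rw [← HH.map_comp, ← HH.map_comp, hq2, hp2]
  obtain ⟨w, hw⟩ := hD2 3 _ hx1 hx2
  have hsub : Subsingleton (HH ℚ 4 WW) := h3 (R4 × R4) 4 (by norm_num) (by
    rw [finrank_R4R4]; norm_num)
  have hw0 : w = 0 := by
    let α : C(PUnit.{1} × WW, WW) := ⟨fun p => p.2, continuous_snd⟩
    let β : C(WW, PUnit.{1} × WW) := ⟨fun p => (PUnit.unit, p), by fun_prop⟩
    have hβα : β.comp α = ContinuousMap.id _ := rfl
    have h := HH.map_id ℚ 4 w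
    rw [← hβα, HH.map_comp, Subsingleton.elim (HH.map ℚ 4 α w) 0, map_zero] at h
    exact h.symm
  have hx0 : x' = 0 := by
    have h := HH.map_id ℚ 3 x'
    rw [← psi_phi, HH.map_comp, ← hw, hw0, map_zero, map_zero] at h
    exact h.symm
  refine ⟨HH.map ℚ 3 p1 x - HH.map ℚ 3 p0 x, HH.map ℚ 3 p2 x, ?_⟩
  change x = HH.map ℚ 3 A1 _ + HH.map ℚ 3 A2 _
  rw [map_sub, ← HH.map_comp, ← HH.map_comp, ← HH.map_comp]
  have h := hx0
  simp only [x'] at h
  rw [← sub_eq_zero]
  rw [← h]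
  abel

end

end Pool.Agent.H48.SP.AX
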