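import Pool.Agent.H93.SP.Targets

/-!
# Module MVP: Mayer-Vietoris for `Z × (A ∪ B)`
-/

open Topology Set
open scoped unitInterval ContinuousMap
open Pool.Agent.H59 Pool.Agent.H64.LB Pool.Agent.H93.SPB

namespace Pool.Agent.H48.SP.MVP

noncomputable section

variable {Z W : Type} [TopologicalSpace Z] [TopologicalSpace W]

/-- the preimage of a set of `W` in `Z × W` -/
def pre (Z : Type) {W : Type} (S : Set W) : Set (Z × W) := {x | x.2 ∈ S}

/-- `Z × S` as a subset of `Z × W` -/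
def ii (Z : Type) {W : Type} [TopologicalSpace Z] [TopologicalSpace W] (S : Set W) :
    C(Z × S, pre Z S) :=
  ⟨fun p => ⟨(p.1, p.2.1), p.2.2⟩, by
    exact (continuous_fst.prodMk (continuous_subtype_val.comp continuous_snd)).subtype_mk _⟩

/-- inverse of `ii` -/
def jj' (Z : Type) {W : Type} [TopologicalSpace Z] [TopologicalSpace W] (S : Set W) :
    C(pre Z S, Z × S) :=
  ⟨fun p => (p.1.1, ⟨p.1.2, p.2⟩), by
    exact (continuous_fst.comp continuous_subtype_val).prodMk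
      ((continuous_snd.comp continuous_subtype_val).subtype_mk _)⟩

theorem jj'_ii (S : Set W) : (jj' Z S).comp (ii Z S) = ContinuousMap.id _ := rfl

theorem ii_jj' (S : Set W) : (ii Z S).comp (jj' Z S) = ContinuousMap.id _ := rfl

theorem map_jj'_ii (S : Set W) (q : ℕ) (x : HH ℚ q (Z × S)) :
    HH.map ℚ q (jj' Z S) (HH.map ℚ q (ii Z S) x) = x := by
  rw [← HH.map_comp, jj'_ii, HH.map_id]

theorem map_ii_jj' (S : Set W) (q : ℕ) (x : HH ℚ q (pre Z S)) :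
    HH.map ℚ q (ii Z S) (HH.map ℚ q (jj' Z S) x) = x := by
  rw [← HH.map_comp, ii_jj', HH.map_id]

theorem mvp (h : T_MV) : T_MVP := by
  intro Z W _ _ A B hA hB hAB
  obtain ⟨DM, hex, -, hanti⟩ := h
  have hU : IsOpen (pre Z A) := hA.preimage continuous_snd
  have hV : IsOpen (pre Z B) := hB.preimage continuous_snd
  have huniv : ∀ x : Z × W, x ∈ pre Z A ∪ pre Z B := by
    intro x
    have : x.2 ∈ A ∪ B := by rw [hAB]; trivial
    exact this
  let k : C(Z × W, ↥(pre Z A ∪ pre Z B)) :=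
    ⟨fun x => ⟨x, huniv x⟩, continuous_id.subtype_mk _⟩
  let l : C(↥(pre Z A ∪ pre Z B), Z × W) := ⟨Subtype.val, continuous_subtype_val⟩
  have hlk : ∀ (q : ℕ) (x : HH ℚ q (Z × W)), HH.map ℚ q l (HH.map ℚ q k x) = x := by
    intro q x
    rw [← HH.map_comp]
    exact HH.map_id _ _ x
  have hkl : ∀ (q : ℕ) (x : HH ℚ q ↥(pre Z A ∪ pre Z B)),
      HH.map ℚ q k (HH.map ℚ q l x) = x := by
    intro q x
    rw [← HH.map_comp]
    exact HH.map_id _ _ x
  let jI : C(↥(pre Z A ∩ pre Z B), Z × ↥(A ∩ B)) := jj' Z (A ∩ B)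
  let iI : C(Z × ↥(A ∩ B), ↥(pre Z A ∩ pre Z B)) := ii Z (A ∩ B)
  have hji : ∀ (q : ℕ) (x : HH ℚ q (Z × ↥(A ∩ B))), HH.map ℚ q jI (HH.map ℚ q iI x) = x :=
    fun q x => map_jj'_ii (Z := Z) (A ∩ B) q x
  have hij : ∀ (q : ℕ) (x : HH ℚ q ↥(pre Z A ∩ pre Z B)),
      HH.map ℚ q iI (HH.map ℚ q jI x) = x :=
    fun q x => map_ii_jj' (Z := Z) (A ∩ B) q x
  obtain ⟨hex1, hex2, hex3, hex4⟩ := hex (Z × W) (pre Z A) (pre Z B) hU hV
  let D : ∀ q : ℕ, HH ℚ (q + 1) (Z × W) →ₗ[ℚ] HH ℚ q (Z × ↥(A ∩ B)) := fun q =>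
    (HH.map ℚ q jI).comp ((DM (Z × W) (pre Z A) (pre Z B) q).comp (HH.map ℚ (q + 1) k))
  have hD : ∀ q x, D q x = HH.map ℚ q jI (DM (Z × W) (pre Z A) (pre Z B) q
      (HH.map ℚ (q + 1) k x)) := fun q x => rfl
  have hlA : l.comp (inc (subset_union_left : pre Z A ⊆ pre Z A ∪ pre Z B))
      = (zm Z (vl A)).comp (jj' Z A) := rfl
  have hlB : l.comp (inc (subset_union_right : pre Z B ⊆ pre Z A ∪ pre Z B))
      = (zm Z (vl B)).comp (jj' Z B) := rfl
  have hiA : (inc (inter_subset_left : pre Z A ∩ pre Z B ⊆ pre Z A)).comp iI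
      = (ii Z A).comp (zm Z (inc (inter_subset_left : A ∩ B ⊆ A))) := rfl
  have hiB : (inc (inter_subset_right : pre Z A ∩ pre Z B ⊆ pre Z B)).comp iI
      = (ii Z B).comp (zm Z (inc (inter_subset_right : A ∩ B ⊆ B))) := rfl
  have hjA : (zm Z (inc (inter_subset_left : A ∩ B ⊆ A))).comp jI
      = (jj' Z A).comp (inc (inter_subset_left : pre Z A ∩ pre Z B ⊆ pre Z A)) := rfl
  have hjB : (zm Z (inc (inter_subset_right : A ∩ B ⊆ B))).comp jI
      = (jj' Z B).comp (inc (inter_subset_right : pre Z A ∩ pre Z B ⊆ pre Z B)) := rfl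
  refine ⟨D, ?_, ?_, ?_, ?_, ?_⟩
  · intro q x hx
    have h1 : DM (Z × W) (pre Z A) (pre Z B) q (HH.map ℚ (q + 1) k x) = 0 := by
      rw [hD] at hx
      rw [← hij q (DM (Z × W) (pre Z A) (pre Z B) q (HH.map ℚ (q + 1) k x)), hx, map_zero]
    obtain ⟨y, z, hyz⟩ := (hex1 q _).1 h1
    refine ⟨HH.map ℚ (q + 1) (jj' Z A) y, HH.map ℚ (q + 1) (jj' Z B) z, ?_⟩
    have h2 := congrArg (HH.map ℚ (q + 1) l) hyz
    rw [hlk, map_add, ← HH.map_comp, ← HH.map_comp, hlA, hlB, HH.map_comp, HH.map_comp] at h2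
    exact h2
  · intro q x hx1 hx2
    have h1 : HH.map ℚ q (inc (inter_subset_left : pre Z A ∩ pre Z B ⊆ pre Z A))
        (HH.map ℚ q iI x) = 0 := by
      rw [← HH.map_comp, hiA, HH.map_comp, hx1, map_zero]
    have h2 : HH.map ℚ q (inc (inter_subset_right : pre Z A ∩ pre Z B ⊆ pre Z B))
        (HH.map ℚ q iI x) = 0 := by
      rw [← HH.map_comp, hiB, HH.map_comp, hx2, map_zero]
    obtain ⟨w, hw⟩ := (hex2 q _).2 ⟨h1, h2⟩
    refine ⟨HH.map ℚ (q + 1) l w, ?_⟩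
    rw [hD, hkl, hw, hji]
  · intro q w
    have h0 := (hex2 q _).1 ⟨HH.map ℚ (q + 1) k w, rfl⟩
    constructor
    · rw [hD, ← HH.map_comp, hjA, HH.map_comp, h0.1, map_zero]
    · rw [hD, ← HH.map_comp, hjB, HH.map_comp, h0.2, map_zero]
  · intro x
    obtain ⟨y, z, hyz⟩ := hex4 (HH.map ℚ 0 k x)
    refine ⟨HH.map ℚ 0 (jj' Z A) y, HH.map ℚ 0 (jj' Z B) z, ?_⟩
    have h2 := congrArg (HH.map ℚ 0 l) hyz
    rw [hlk, map_add, ← HH.map_comp, ← HH.map_comp, hlA, hlB, HH.map_comp, HH.map_comp] at h2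
    exact h2
  · intro f hfA hfB hf q x
    have hFA : MapsTo (zm Z f) (pre Z A) (pre Z B) := fun p hp => hfA hp
    have hFB : MapsTo (zm Z f) (pre Z B) (pre Z A) := fun p hp => hfB hp
    have hFU : MapsTo (zm Z f) (pre Z A ∪ pre Z B) (pre Z A ∪ pre Z B) := fun p _ => huniv _
    have hFI : MapsTo (zm Z f) (pre Z A ∩ pre Z B) (pre Z A ∩ pre Z B) := fun p hp => hf hp
    have h1 := hanti (Z × W) (Z × W) (pre Z A) (pre Z B) (pre Z A) (pre Z B) (zm Z f) hFA hFB hFU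
      hFI q (HH.map ℚ (q + 1) k x) hU hV hU hV
    have hk : k.comp (zm Z f) = (rst (zm Z f) hFU).comp k := rfl
    have hj : jI.comp (rst (zm Z f) hFI) = (zm Z (rst f hf)).comp jI := rfl
    rw [hD, hD, ← HH.map_comp, hk, HH.map_comp, h1, map_neg, ← HH.map_comp, hj, HH.map_comp]

end

end Pool.Agent.H48.SP.MVP
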