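import Pool.Agent.H93.SP.Targets

/-!
# Module TRH: the transfer property of symmetric products is homotopy invariant
-/

open Topology Set
open scoped unitInterval ContinuousMap
open Pool.Agent.H59 Pool.Agent.H64.LB Pool.Agent.H93.SPB

namespace Pool.Agent.H48.SP.TRH

noncomputable section

variable {Y Y' Y'' : Type} [TopologicalSpace Y] [TopologicalSpace Y'] [TopologicalSpace Y'']

/-- the map of powers induced by a map -/
def pw (N : ℕ) (f : C(Y, Y')) : C(Fin N → Y, Fin N → Y') :=
  ⟨fun x => f ∘ x, by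
    refine continuous_pi fun i => ?_
    exact f.continuous.comp (continuous_apply i)⟩

@[simp] theorem pw_apply (N : ℕ) (f : C(Y, Y')) (x : Fin N → Y) : pw N f x = f ∘ x := rfl

theorem pw_homotopic (N : ℕ) {f g : C(Y, Y')} (h : f.Homotopic g) :
    (pw N f).Homotopic (pw N g) := by
  obtain ⟨H⟩ := h
  exact ⟨{
    toFun := fun p i => H (p.1, p.2 i)
    continuous_toFun := by
      refine continuous_pi fun i => ?_
      exact H.continuous.comp (continuous_fst.prodMk ((continuous_apply i).comp continuous_snd))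
    map_zero_left := fun x => by
      funext i; exact H.apply_zero (x i)
    map_one_left := fun x => by
      funext i; exact H.apply_one (x i) }⟩

theorem pw_comp (N : ℕ) (f : C(Y, Y')) (g : C(Y', Y'')) :
    (pw N g).comp (pw N f) = pw N (g.comp f) := rfl

theorem pw_id (N : ℕ) : pw N (ContinuousMap.id Y) = ContinuousMap.id _ := rfl

theorem proj_pw (N : ℕ) (f : C(Y, Y')) :
    (proj N Y').comp (pw N f) = (spMap N f).comp (proj N Y) := rfl

theorem pw_perm (N : ℕ) (f : C(Y, Y')) (s : Equiv.Perm (Fin N)) :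
    (permC s Y').comp (pw N f) = (pw N f).comp (permC s Y) := rfl

theorem trh (h1 : T_SPH) (h2 : T_HI) : T_TRH := by
  intro Y Y' _ _ hne N hT q
  obtain ⟨e⟩ := hne
  let f : C(Y, Y') := e.toFun
  let g : C(Y', Y) := e.invFun
  have hfg : (f.comp g).Homotopic (ContinuousMap.id Y') := e.right_inv
  have hpw : ∀ x : HH ℚ q (Fin N → Y'),
      HH.map ℚ q (pw N f) (HH.map ℚ q (pw N g) x) = x := by
    intro x
    rw [← HH.map_comp, pw_comp, h2 _ _ _ _ (pw_homotopic N hfg) q, pw_id, HH.map_id]
  have hsp : ∀ x : HH ℚ q (SP N Y'),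
      HH.map ℚ q (spMap N f) (HH.map ℚ q (spMap N g) x) = x := by
    intro x
    rw [← HH.map_comp, h2 _ _ _ _ (h1 Y' Y g f hfg N) q, HH.map_id]
  obtain ⟨hS, hI⟩ := hT q
  constructor
  · intro z
    obtain ⟨x, hx⟩ := hS (HH.map ℚ q (spMap N g) z)
    refine ⟨HH.map ℚ q (pw N f) x, ?_⟩
    rw [← HH.map_comp, proj_pw, HH.map_comp, hx, hsp]
  · intro x hx
    have h3 : HH.map ℚ q (proj N Y) (HH.map ℚ q (pw N g) x) = 0 := by
      rw [← HH.map_comp, proj_pw, HH.map_comp, hx, map_zero]
    have h4 := hI _ h3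
    have h5 := congrArg (HH.map ℚ q (pw N f)) h4
    rw [map_sum, map_zero] at h5
    rw [← h5]
    refine Finset.sum_congr rfl fun s _ => ?_
    rw [← HH.map_comp, ← pw_perm, HH.map_comp, hpw]

end

end Pool.Agent.H48.SP.TRH
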